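import Pool.Agent.H24.LV.Targets
import Pool.Agent.H24.CL.AllK

/-!
Row CH of the board lvp_modules: the alive points of level `N` lie in a small exceptional set or
in the first sets of boundedly many good chains.
-/

set_option autoImplicit false

open Finset MeasureTheory

namespace Pool.Agent.H25.LVP

open Pool.Agent.H24.CL Pool.Agent.H24.LV

/-- the empty chain -/
lemma emptyChain (k q m L : ℕ) (T ρ t₀ : ℝ) (hq : 1 ≤ q) (ht : 0 < t₀) :
    IsChain k q m L T ρ t₀ (fun _ => (∅ : Set (X k))) (fun _ => t₀) (fun _ => 1) := by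
  have hqm : (1 : ℝ) ≤ (q : ℝ) ^ m := one_le_pow₀ (by exact_mod_cast hq)
  refine ⟨fun j _ => MeasurableSet.empty, fun j _ w hw => absurd hw (Set.notMem_empty _),
    fun j _ w hw => absurd hw (Set.notMem_empty _), ?_, ?_, fun j _ => le_rfl, ?_,
    fun j _ w hw => absurd hw (Set.notMem_empty _),
    fun j _ w hw => absurd hw (Set.notMem_empty _),
    fun j _ w hw => absurd hw (Set.notMem_empty _)⟩
  · intro j _
    exact div_le_self ht.le (one_le_pow₀ (by norm_num))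
  · intro j _
    exact le_mul_of_one_le_right ht.le hqm
  · intro j _
    exact_mod_cast hq

/-- a chain stays a chain if `T` grows -/
lemma IsChain.monoT {k q m L : ℕ} {T T' ρ t₀ : ℝ} {W : ℕ → Set (X k)} {A n : ℕ → ℝ}
    (h : IsChain k q m L T ρ t₀ W A n) (hT : T ≤ T') : IsChain k q m L T' ρ t₀ W A n := by
  refine ⟨h.meas, h.lo, h.hi, h.A_lo, h.A_hi, h.one_le, h.n_le, h.card_lo, h.card_hi, ?_⟩
  intro j hj w hw
  exact (h.carry j hj w hw).trans (mul_le_mul_of_nonneg_right hT (norm_nonneg _))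

/-- splitting the sum -/
lemma f_split {k : ℕ} (N' r : ℕ) (a : X k) :
    f (N' + r) a = f N' a + e (P a N') * f r (phi 1 N' a) := by
  unfold f
  rw [Finset.sum_range_add, Finset.mul_sum]
  congr 1
  refine Finset.sum_congr rfl (fun n _ => ?_)
  have h := rPF.1 k 1 N' n a
  rw [one_mul] at h
  rw [h, rEX.2.1]

/-- if the shortened sum is small, the rest is large -/
lemma rest_large {k : ℕ} (N' r : ℕ) (t : ℝ) (a : X k) (hN' : 1 ≤ N')
    (h1 : t ≤ ‖u (N' + r) a‖) (h2 : ‖u N' a‖ < 3 * t / 4) :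
    ((N' + r : ℕ) : ℝ) * t / 4 ≤ ‖f r (phi 1 N' a)‖ := by
  have hN0 : (0 : ℝ) < (N' : ℝ) := by exact_mod_cast hN'
  have hNr : (0 : ℝ) < ((N' + r : ℕ) : ℝ) := by
    have : 0 < N' + r := by omega
    exact_mod_cast this
  have h3 : ((N' + r : ℕ) : ℝ) * t ≤ ‖f (N' + r) a‖ := by
    unfold u at h1
    rw [norm_div, Complex.norm_natCast, le_div_iff₀ hNr] at h1
    linarith
  have h4 : ‖f N' a‖ ≤ (N' : ℝ) * (3 * t / 4) := by
    unfold u at h2
    rw [norm_div, Complex.norm_natCast, div_lt_iff₀ hN0] at h2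
    linarith
  have h5 : ‖f (N' + r) a‖ ≤ ‖f N' a‖ + ‖f r (phi 1 N' a)‖ := by
    rw [f_split]
    refine (norm_add_le _ _).trans ?_
    rw [norm_mul, rEX.1, one_mul]
  have ht : 0 < t := by
    have := norm_nonneg (u N' a)
    linarith
  have h6 : (N' : ℝ) * (3 * t / 4) ≤ ((N' + r : ℕ) : ℝ) * (3 * t / 4) := by
    apply mul_le_mul_of_nonneg_right _ (by positivity)
    push_cast
    have : (0 : ℝ) ≤ (r : ℝ) := Nat.cast_nonneg _
    linarith
  linarith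

/-- the measure of the points with a large rest -/
lemma rest_meas {k : ℕ} {C : ℝ} (hC : 1 ≤ C)
    (hWT : ∀ (N : ℕ) (t : ℝ), 1 ≤ N → 0 < t →
      (N : ℝ) ^ (KN k) * t ^ (2 * KN k) * volume.real {a : X k | t ≤ ‖u N a‖} ≤ C)
    (N N' r : ℕ) (t : ℝ) (hN : 1 ≤ N) (ht : 0 < t) :
    (N : ℝ) ^ (KN k) * t ^ (2 * KN k) *
      volume.real {a : X k | (N : ℝ) * t / 4 ≤ ‖f r (phi 1 N' a)‖} ≤
        C * 16 ^ (KN k) * ((r : ℝ) / N) ^ (KN k) := by
  have hN0 : (0 : ℝ) < (N : ℝ) := by exact_mod_cast hN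
  rcases Nat.eq_zero_or_pos r with hr | hr
  · have hemp : {a : X k | (N : ℝ) * t / 4 ≤ ‖f r (phi 1 N' a)‖} = ∅ := by
      rw [Set.eq_empty_iff_forall_notMem]
      intro a ha
      rw [Set.mem_ofPred_eq, hr] at ha
      have h1 : f 0 (phi 1 N' a) = (0 : ℂ) := by
        unfold f
        simp
      rw [h1, norm_zero] at ha
      have : 0 < (N : ℝ) * t := by positivity
      linarith
    rw [hemp, measureReal_empty, mul_zero]
    positivity
  · have hr0 : (0 : ℝ) < (r : ℝ) := by exact_mod_cast hr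
    set t' : ℝ := (N : ℝ) * t / (4 * r) with ht'
    have ht'0 : 0 < t' := by positivity
    have hset : {a : X k | (N : ℝ) * t / 4 ≤ ‖f r (phi 1 N' a)‖} =
        (phi 1 N' : X k → X k) ⁻¹' {b : X k | t' ≤ ‖u r b‖} := by
      ext a
      rw [Set.mem_preimage, Set.mem_ofPred_eq, Set.mem_ofPred_eq]
      unfold u
      rw [norm_div, Complex.norm_natCast, le_div_iff₀ hr0]
      have : t' * r = (N : ℝ) * t / 4 := by
        rw [ht']
        field_simp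
      rw [this]
    have hcl : MeasurableSet {b : X k | t' ≤ ‖u r b‖} :=
      (isClosed_le continuous_const (rEX.2.2.2.2.2.2.2.1 k r).norm).measurableSet
    have hvol : volume.real {a : X k | (N : ℝ) * t / 4 ≤ ‖f r (phi 1 N' a)‖} =
        volume.real {b : X k | t' ≤ ‖u r b‖} := by
      rw [hset]
      exact (rMP k 1 N' le_rfl).2.2.measureReal_preimage hcl.nullMeasurableSet
    rw [hvol]
    have h1 := hWT r t' hr ht'0
    have h2 : (r : ℝ) ^ (KN k) * t' ^ (2 * KN k) =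
        ((N : ℝ) ^ (KN k) * t ^ (2 * KN k)) / (16 ^ (KN k) * ((r : ℝ) / N) ^ (KN k)) := by
      rw [ht', pow_mul, pow_mul, ← mul_pow, ← mul_pow, ← mul_pow, ← div_pow]
      congr 1
      field_simp
      ring
    rw [h2, div_mul_eq_mul_div, div_le_iff₀ (by positivity)] at h1
    linarith

lemma KN_ge (k : ℕ) (hk : 1 ≤ k) : k ≤ KN k := by
  unfold KN
  rw [Nat.le_div_iff_mul_le (by norm_num)]
  nlinarith

theorem pf_CH (hBD : L_BD) (hWT : L_WT) : L_CH := by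
  classical
  intro k hk3
  obtain ⟨CB, hCB, hBD1⟩ := hBD k hk3
  obtain ⟨Cw, hCw, hWT1⟩ := hWT k hk3
  obtain ⟨K, hK⟩ : ∃ K : ℕ, K = KN k := ⟨_, rfl⟩
  have hKk : k ≤ K := by rw [hK]; exact KN_ge k (by omega)
  have hrest := fun (N N' r : ℕ) (t : ℝ) (hN : 1 ≤ N) (ht : 0 < t) =>
    rest_meas hCw hWT1 N N' r t hN ht
  rw [← hK] at hBD1 hrest ⊢
  obtain ⟨CX, hCX⟩ : ∃ CX : ℝ, CX = max CB (K + k + 10) := ⟨_, rfl⟩
  have hCX1 : CB ≤ CX := by rw [hCX]; exact le_max_left _ _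
  have hCX2 : (K : ℝ) + k + 10 ≤ CX := by rw [hCX]; exact le_max_right _ _
  refine ⟨CX + 1, by linarith, ?_⟩
  intro c₁ hc0 hc1
  obtain ⟨δ, hδ, hBD2⟩ := hBD1 c₁ hc0 (by linarith)
  obtain ⟨l1, hl1⟩ : ∃ l1 : ℝ, l1 = Real.log (1 / c₁) := ⟨_, rfl⟩
  have hl10 : 0 ≤ l1 := by
    rw [hl1]
    apply Real.log_nonneg
    rw [le_div_iff₀ hc0]
    linarith
  rw [← hl1] at hBD2 ⊢
  obtain ⟨d, hd⟩ : ∃ d : ℝ, d = min (δ / 2) (1 / 2) := ⟨_, rfl⟩
  have hd0 : 0 < d := by rw [hd]; exact lt_min (by linarith) (by norm_num)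
  have hd1 : 2 * d ≤ δ := by
    have : d ≤ δ / 2 := by rw [hd]; exact min_le_left _ _
    linarith
  have hd2 : 2 * d ≤ 1 := by
    have : d ≤ 1 / 2 := by rw [hd]; exact min_le_right _ _
    linarith
  refine ⟨d, hd0, ?_⟩
  intro Dm ε₁ hε₁
  obtain ⟨MD, hMD⟩ : ∃ MD : ℕ, MD = ⌊Dm⌋₊ := ⟨_, rfl⟩
  -- the constants of BD for the integers up to `MD`
  have he : ∀ D : ℕ, ∃ e0 : ℝ, 0 < e0 ∧ (CB * (1 + l1) ≤ (D : ℝ) →
      ∀ (ε T : ℝ) (m : ℕ), 0 < ε → ε ≤ e0 → 1 ≤ T → (m : ℝ) ≤ ((K : ℝ) + 4) * D → ∃ q₀ : ℕ,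
      ∀ (q L : ℕ) (t₀ : ℝ) (W : ℕ → Set (X k)) (A n : ℕ → ℝ) (R : ℕ → ℕ), q₀ ≤ q → q.Prime →
        1 ≤ L → 0 < t₀ →
        (q : ℝ) ^ ((D : ℝ) - 1) ≤ ((q : ℝ) ^ m * L) * t₀ ^ 2 →
        ((q : ℝ) ^ m * L) * t₀ ^ 2 ≤ (q : ℝ) ^ ((D : ℝ) + 1) →
        (((K : ℝ) + 2) * (D + 1) ≤ m ∨ L ≤ q ^ 2) →
        IsChain k q m L T ((q : ℝ) ^ ε) t₀ W A n → IsLab k q m ((q : ℝ) ^ ε) W n R →
        (∃ l < k, (q : ℝ) ^ c₁ ≤ Gr q T ((q : ℝ) ^ ε) A n l) →
        ((q : ℝ) ^ m * L) ^ K * t₀ ^ (2 * K) * volume.real (W 0) ≤ (q : ℝ) ^ (-δ)) := by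
    intro D
    by_cases hD : CB * (1 + l1) ≤ (D : ℝ)
    · obtain ⟨e0, he0, h⟩ := hBD2 D hD
      exact ⟨e0, he0, fun _ => h⟩
    · exact ⟨1, one_pos, fun h => absurd h hD⟩
  choose e0 he0 heB using he
  obtain ⟨ε, hε, hεle, hε6, hεD⟩ : ∃ ε : ℝ, 0 < ε ∧ ε ≤ ε₁ ∧ ε ≤ 1 / 6 ∧
      ∀ D ≤ MD, ε ≤ e0 D := by
    obtain ⟨D1, hD1, hmin⟩ := Finset.exists_min_image (range (MD + 1)) e0
      ⟨0, mem_range.2 (by omega)⟩
    refine ⟨min ε₁ (min (1 / 6) (e0 D1)), lt_min hε₁ (lt_min (by norm_num) (he0 D1)),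
      min_le_left _ _, (min_le_right _ _).trans (min_le_left _ _), ?_⟩
    intro D hD
    exact ((min_le_right _ _).trans (min_le_right _ _)).trans
      (hmin D (mem_range.2 (by omega)))
  choose TTf Tf hTf hTY using fun m : ℕ => kTY k m ε (by omega) hε
  obtain ⟨m₁, hm₁⟩ : ∃ m₁ : ℕ, m₁ = (K + 2) * (MD + 1) := ⟨_, rfl⟩
  obtain ⟨T, hT⟩ : ∃ T : ℝ, T = ∑ m ∈ range (m₁ + 1), Tf m := ⟨_, rfl⟩
  obtain ⟨TT, hTT⟩ : ∃ TT : ℕ, TT = ∑ m ∈ range (m₁ + 1), TTf m := ⟨_, rfl⟩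
  have hTm : ∀ m ≤ m₁, Tf m ≤ T := by
    intro m hm
    rw [hT]
    exact Finset.single_le_sum (f := Tf) (fun i _ => zero_le_one.trans (hTf i))
      (mem_range.2 (by omega))
  have hTTm : ∀ m ≤ m₁, TTf m ≤ TT := by
    intro m hm
    rw [hTT]
    exact Finset.single_le_sum (f := TTf) (fun i _ => Nat.zero_le _) (mem_range.2 (by omega))
  have hT1 : 1 ≤ T := (hTf 0).trans (hTm 0 (Nat.zero_le _))
  -- the bounds for `q`
  have hq1 : ∀ D m : ℕ, ∃ q₀ : ℕ, CB * (1 + l1) ≤ (D : ℝ) → D ≤ MD →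
      (m : ℝ) ≤ ((K : ℝ) + 4) * D →
      ∀ (q L : ℕ) (t₀ : ℝ) (W : ℕ → Set (X k)) (A n : ℕ → ℝ) (R : ℕ → ℕ), q₀ ≤ q → q.Prime →
        1 ≤ L → 0 < t₀ →
        (q : ℝ) ^ ((D : ℝ) - 1) ≤ ((q : ℝ) ^ m * L) * t₀ ^ 2 →
        ((q : ℝ) ^ m * L) * t₀ ^ 2 ≤ (q : ℝ) ^ ((D : ℝ) + 1) →
        (((K : ℝ) + 2) * (D + 1) ≤ m ∨ L ≤ q ^ 2) →
        IsChain k q m L T ((q : ℝ) ^ ε) t₀ W A n → IsLab k q m ((q : ℝ) ^ ε) W n R →
        (∃ l < k, (q : ℝ) ^ c₁ ≤ Gr q T ((q : ℝ) ^ ε) A n l) →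
        ((q : ℝ) ^ m * L) ^ K * t₀ ^ (2 * K) * volume.real (W 0) ≤ (q : ℝ) ^ (-δ) := by
    intro D m
    by_cases h : CB * (1 + l1) ≤ (D : ℝ) ∧ D ≤ MD ∧ (m : ℝ) ≤ ((K : ℝ) + 4) * D
    · obtain ⟨q₀, hq₀⟩ := heB D h.1 ε T m hε (hεD D h.2.1) hT1 h.2.2
      exact ⟨q₀, fun _ _ _ => hq₀⟩
    · exact ⟨0, fun h1 h2 h3 => absurd ⟨h1, h2, h3⟩ h⟩
  choose q1 hq1' using hq1
  have hq2 : ∀ D m : ℕ, ∃ q₀ : ℕ, 1 ≤ m → ∀ (q L : ℕ) (t₀ : ℝ), q₀ ≤ q → 1 ≤ L → 0 < t₀ →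
      ((q : ℝ) ^ m * L) * t₀ ^ 2 ≤ (q : ℝ) ^ ((D : ℝ) + 1) →
      ((q : ℝ) ^ m * L) ^ K * t₀ ^ (2 * K) *
        volume.real (Etop k q m L (t₀ * (q : ℝ) ^ m)) ≤ 1 / (q : ℝ) := by
    intro D m
    by_cases h : 1 ≤ m
    · obtain ⟨q₀, hq₀⟩ := rTP k m D hk3 h
      rw [← hK] at hq₀
      exact ⟨q₀, fun _ => hq₀⟩
    · exact ⟨0, fun h1 => absurd h1 h⟩
  choose q2 hq2' using hq2
  have ev : ∀ a Z : ℝ, 0 < a → ∃ q₀ : ℕ, ∀ q : ℕ, q₀ ≤ q → Z ≤ (q : ℝ) ^ a := by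
    intro a Z ha
    have h1 : Filter.Tendsto (fun q : ℕ => (q : ℝ) ^ a) Filter.atTop Filter.atTop :=
      (tendsto_rpow_atTop ha).comp tendsto_natCast_atTop_atTop
    obtain ⟨q₀, hq₀⟩ := Filter.eventually_atTop.1 (h1.eventually_ge_atTop Z)
    exact ⟨q₀, fun q hq => hq₀ q hq⟩
  obtain ⟨Z, hZ⟩ : ∃ Z : ℝ, Z = Cw * 16 ^ K + (32 / 9) ^ K * (1 + TT) := ⟨_, rfl⟩
  obtain ⟨qa, hqa⟩ := ev d Z hd0
  obtain ⟨qb, hqb⟩ := ev (1 / 2) (T ^ 2) (by norm_num)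
  obtain ⟨qs, hqs⟩ : ∃ qs : ℕ, qs = ∑ D ∈ range (MD + 1), ∑ m ∈ range (m₁ + 1),
      (q1 D m + q2 D m) := ⟨_, rfl⟩
  have hqs' : ∀ D ≤ MD, ∀ m ≤ m₁, q1 D m + q2 D m ≤ qs := by
    intro D hD m hm
    rw [hqs]
    refine le_trans ?_ (Finset.single_le_sum (f := fun D => ∑ m ∈ range (m₁ + 1),
      (q1 D m + q2 D m)) (fun i _ => Nat.zero_le _) (mem_range.2 (Nat.lt_succ_of_le hD)))
    exact Finset.single_le_sum (f := fun m => q1 D m + q2 D m) (fun i _ => Nat.zero_le _)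
      (mem_range.2 (by omega))
  refine ⟨max (max qa qb) (max qs 4), TT, m₁, T, ε, hT1, hε, hεle, ?_⟩
  intro q N t hq hqp hN ht0 ht1 hlo hhi
  have hqa' : qa ≤ q := ((le_max_left _ _).trans (le_max_left _ _)).trans hq
  have hqb' : qb ≤ q := ((le_max_right _ _).trans (le_max_left _ _)).trans hq
  have hqsq : qs ≤ q := ((le_max_left _ _).trans (le_max_right _ _)).trans hq
  have hq4 : 4 ≤ q := ((le_max_right _ _).trans (le_max_right _ _)).trans hq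
  have hZq := hqa q hqa'
  have hTq := hqb q hqb'
  obtain ⟨Q, hQ⟩ : ∃ Q : ℝ, Q = (q : ℝ) := ⟨_, rfl⟩
  have hQ4 : (4 : ℝ) ≤ Q := by rw [hQ]; exact_mod_cast hq4
  have hQ1 : 1 < Q := by linarith
  have hQ0 : 0 < Q := by linarith
  rw [← hQ] at hlo hhi hZq hTq
  have hN0 : (0 : ℝ) < (N : ℝ) := by exact_mod_cast hN
  obtain ⟨y, hy⟩ : ∃ y : ℝ, y = N * t ^ 2 := ⟨_, rfl⟩
  have hy0 : 0 < y := by rw [hy]; positivity
  rw [← hy] at hlo hhi
  have hyN : y ≤ N := by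
    rw [hy]
    exact mul_le_of_le_one_right hN0.le (pow_le_one₀ ht0.le ht1)
  -- the size `D`
  obtain ⟨lg, hlg⟩ : ∃ lg : ℝ, lg = Real.logb Q y := ⟨_, rfl⟩
  have hlgy : Q ^ lg = y := by
    rw [hlg]
    exact Real.rpow_logb hQ0 hQ1.ne' hy0
  have hlglo : (CX + 1) * (1 + l1) ≤ lg := by
    rw [← hlgy, Real.rpow_le_rpow_left_iff hQ1] at hlo
    exact hlo
  have hlghi : lg ≤ Dm := by
    rw [← hlgy, Real.rpow_le_rpow_left_iff hQ1] at hhi
    exact hhi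
  have hCX0 : 0 ≤ CX := by linarith
  have hpr : (CX + 1) * (1 + l1) = CX * (1 + l1) + 1 + l1 := by ring
  have hCXl : 0 ≤ CX * l1 := mul_nonneg hCX0 hl10
  have hCXe : CX * (1 + l1) = CX + CX * l1 := by ring
  have hlg0 : 0 ≤ lg := by linarith
  obtain ⟨D, hD⟩ : ∃ D : ℕ, D = ⌊lg⌋₊ := ⟨_, rfl⟩
  have hD1 : (D : ℝ) ≤ lg := by rw [hD]; exact Nat.floor_le hlg0
  have hD2 : lg < (D : ℝ) + 1 := by rw [hD]; exact Nat.lt_floor_add_one lg
  have hDMD : D ≤ MD := by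
    rw [hMD]
    exact Nat.le_floor (hD1.trans hlghi)
  have hDCX : CX * (1 + l1) ≤ D := by linarith
  have hDCB : CB * (1 + l1) ≤ (D : ℝ) :=
    (mul_le_mul_of_nonneg_right hCX1 (by linarith)).trans hDCX
  have hDK : (K : ℝ) + k + 10 ≤ D := by linarith
  have hDKn : K + k + 10 ≤ D := by exact_mod_cast hDK
  have hQD : Q ^ (D : ℝ) ≤ y := by
    rw [← hlgy]
    exact Real.rpow_le_rpow_of_exponent_le hQ1.le hD1
  have hQD1 : y ≤ Q ^ ((D : ℝ) + 1) := by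
    rw [← hlgy]
    exact Real.rpow_le_rpow_of_exponent_le hQ1.le hD2.le
  -- the length `m`
  obtain ⟨lN, hlN⟩ : ∃ lN : ℕ, lN = Nat.log q N := ⟨_, rfl⟩
  have hlN1 : q ^ lN ≤ N := by
    rw [hlN]
    exact Nat.pow_log_le_self q (by omega)
  have hlN2 : N < q ^ (lN + 1) := by
    rw [hlN]
    exact Nat.lt_pow_succ_log_self (by omega) N
  have hDlN : D ≤ lN := by
    rw [hlN]
    apply Nat.le_log_of_pow_le (by omega)
    have h1 : Q ^ (D : ℝ) ≤ (N : ℝ) := hQD.trans hyN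
    rw [Real.rpow_natCast, hQ] at h1
    exact_mod_cast h1
  obtain ⟨m, hm⟩ : ∃ m : ℕ, m = min (lN - 1) ((K + 2) * (D + 1)) := ⟨_, rfl⟩
  have hmle1 : m ≤ lN - 1 := by rw [hm]; exact min_le_left _ _
  have hmle2 : m ≤ (K + 2) * (D + 1) := by rw [hm]; exact min_le_right _ _
  have hkm : k ≤ m := by
    rw [hm]
    refine le_min (by omega) ?_
    have h1 : K + 2 ≤ (K + 2) * (D + 1) := Nat.le_mul_of_pos_right _ (by omega)
    omega
  have hmm₁ : m ≤ m₁ := by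
    rw [hm₁]
    exact hmle2.trans (Nat.mul_le_mul_left _ (by omega))
  have hmV : (m : ℝ) ≤ ((K : ℝ) + 4) * D := by
    have h1 : (m : ℝ) ≤ ((K : ℝ) + 2) * (D + 1) := by exact_mod_cast hmle2
    have h2 : (0 : ℝ) ≤ k := Nat.cast_nonneg _
    have h3 : ((K : ℝ) + 2) * (D + 1) = K * D + 2 * D + K + 2 := by ring
    have h4 : ((K : ℝ) + 4) * D = K * D + 4 * D := by ring
    linarith
  have hq0 : 0 < q := by omega
  have hqm0 : 0 < q ^ m := pow_pos hq0 m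
  have hqmN : q * q ^ m ≤ N := by
    rw [← pow_succ']
    exact (Nat.pow_le_pow_right hq0 (by omega)).trans hlN1
  obtain ⟨L, hL⟩ : ∃ L : ℕ, L = N / q ^ m := ⟨_, rfl⟩
  have hqL : q ≤ L := by
    rw [hL, Nat.le_div_iff_mul_le hqm0]
    exact hqmN
  have hL1 : 1 ≤ L := by omega
  have hN'N : q ^ m * L ≤ N := by
    rw [hL]
    exact Nat.mul_div_le N _
  obtain ⟨r, hr⟩ : ∃ r : ℕ, r = N - q ^ m * L := ⟨_, rfl⟩
  have hNr : q ^ m * L + r = N := by omega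
  have hrlt : r < q ^ m := by
    have h1 : r = N % q ^ m := by
      have := Nat.div_add_mod N (q ^ m)
      rw [← hL] at this
      omega
    rw [h1]
    exact Nat.mod_lt _ hqm0
  have hN'1 : 1 ≤ q ^ m * L := Nat.mul_pos hqm0 (by omega)
  have hqmL : q ^ m ≤ q ^ m * L := Nat.le_mul_of_pos_right _ (by omega)
  have hN2N' : N ≤ 2 * (q ^ m * L) := by omega
  have hmL : ((K : ℝ) + 2) * (D + 1) ≤ m ∨ L ≤ q ^ 2 := by
    by_cases hc : (K + 2) * (D + 1) ≤ lN - 1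
    · left
      have : m = (K + 2) * (D + 1) := by rw [hm]; exact min_eq_right hc
      rw [this]
      push_cast
      exact le_rfl
    · right
      have h1 : m = lN - 1 := by rw [hm]; exact min_eq_left (by omega)
      have h2 : N < q ^ m * q ^ 2 := by
        rw [← pow_add]
        have : m + 2 = lN + 1 := by omega
        rw [this]
        exact hlN2
      rw [hL]
      exact (Nat.div_lt_of_lt_mul h2).le
  have hrN : (r : ℝ) / N ≤ 1 / Q := by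
    rw [div_le_div_iff₀ hN0 hQ0, hQ]
    have : r * q ≤ 1 * N := by
      have h1 : r * q ≤ q ^ m * q := Nat.mul_le_mul_right _ hrlt.le
      have h2 : q ^ m * q = q * q ^ m := mul_comm _ _
      omega
    exact_mod_cast this
  obtain ⟨t₀, ht₀⟩ : ∃ t₀ : ℝ, t₀ = 3 * t / 4 := ⟨_, rfl⟩
  have ht₀0 : 0 < t₀ := by rw [ht₀]; positivity
  have hcastN' : ((q ^ m * L : ℕ) : ℝ) = (q : ℝ) ^ m * L := by push_cast; ring
  have hz1 : (N : ℝ) / 2 ≤ (q : ℝ) ^ m * L := by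
    rw [← hcastN']
    have : (N : ℝ) ≤ 2 * ((q ^ m * L : ℕ) : ℝ) := by exact_mod_cast hN2N'
    linarith
  have hz2 : (q : ℝ) ^ m * L ≤ N := by
    rw [← hcastN']
    exact_mod_cast hN'N
  have ht₀2 : t₀ ^ 2 = 9 / 16 * t ^ 2 := by rw [ht₀]; ring
  have hzlo : (q : ℝ) ^ ((D : ℝ) - 1) ≤ ((q : ℝ) ^ m * L) * t₀ ^ 2 := by
    rw [ht₀2]
    have h1 : Q ^ ((D : ℝ) - 1) ≤ (1 / 4) * y := by
      rw [Real.rpow_sub hQ0, Real.rpow_one]
      rw [div_le_iff₀ hQ0]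
      have : (1 / 4) * y * 4 ≤ (1 / 4) * y * Q := mul_le_mul_of_nonneg_left hQ4 (by positivity)
      linarith
    rw [← hQ]
    rw [← hQ] at hz1
    refine h1.trans ?_
    have h2 : (N : ℝ) / 2 * (9 / 16 * t ^ 2) ≤ Q ^ m * L * (9 / 16 * t ^ 2) :=
      mul_le_mul_of_nonneg_right hz1 (by positivity)
    have h3 : (N : ℝ) / 2 * (9 / 16 * t ^ 2) = 9 / 32 * y := by rw [hy]; ring
    linarith
  have hzhi : ((q : ℝ) ^ m * L) * t₀ ^ 2 ≤ (q : ℝ) ^ ((D : ℝ) + 1) := by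
    rw [ht₀2]
    have h2 : (q : ℝ) ^ m * L * (9 / 16 * t ^ 2) ≤ N * (9 / 16 * t ^ 2) :=
      mul_le_mul_of_nonneg_right hz2 (by positivity)
    have h3 : (N : ℝ) * (9 / 16 * t ^ 2) = 9 / 16 * y := by rw [hy]; ring
    rw [hQ] at hQD1
    linarith
  -- the chains
  obtain ⟨W, A, n, R, hch0, hlab, hcov⟩ := hTY m q L t₀ (by omega) hL1 ht₀0
  have hch : ∀ c, IsChain k q m L T ((q : ℝ) ^ ε) t₀ (W c) (A c) (n c) :=
    fun c => IsChain.monoT (hch0 c) (hTm m hmm₁)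
  obtain ⟨gd, hgd⟩ : ∃ gd : Fin (TTf m) → Prop, gd = fun c =>
    ∀ l < k, Gr q T ((q : ℝ) ^ ε) (A c) (n c) l ≤ (q : ℝ) ^ c₁ := ⟨_, rfl⟩
  have hemp : ∀ l < k, Gr q T ((q : ℝ) ^ ε) (fun _ => t₀) (fun _ => 1) l ≤ (q : ℝ) ^ c₁ := by
    intro l _
    unfold Gr
    rw [← hQ]
    have h1 : T ^ 2 * (Q ^ ε) ^ 3 * 1 * t₀ ^ 2 / (Q * t₀ ^ 2) = T ^ 2 * (Q ^ ε) ^ 3 / Q := by
      field_simp
    rw [h1]
    have h2 : (Q ^ ε) ^ 3 ≤ Q ^ (1 / 2 : ℝ) := by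
      rw [← Real.rpow_natCast, ← Real.rpow_mul hQ0.le]
      apply Real.rpow_le_rpow_of_exponent_le hQ1.le
      push_cast
      linarith
    have h3 : T ^ 2 * (Q ^ ε) ^ 3 ≤ Q := by
      calc T ^ 2 * (Q ^ ε) ^ 3 ≤ Q ^ (1 / 2 : ℝ) * Q ^ (1 / 2 : ℝ) :=
            mul_le_mul hTq h2 (by positivity) (by positivity)
        _ = Q := by
            rw [← Real.rpow_add hQ0]
            norm_num
    have h4 : T ^ 2 * (Q ^ ε) ^ 3 / Q ≤ 1 := by
      rw [div_le_one hQ0]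
      exact h3
    exact h4.trans (Real.one_le_rpow hQ1.le hc0.le)
  have hc' : ∀ c : Fin TT, ∃ (W' : ℕ → Set (X k)) (A' n' : ℕ → ℝ),
      (IsChain k q m L T ((q : ℝ) ^ ε) t₀ W' A' n' ∧
        ∀ l < k, Gr q T ((q : ℝ) ^ ε) A' n' l ≤ (q : ℝ) ^ c₁) ∧
      ∀ h : c.val < TTf m, gd ⟨c.val, h⟩ → W ⟨c.val, h⟩ 0 ⊆ W' 0 := by
    intro c
    by_cases h : ∃ h' : c.val < TTf m, gd ⟨c.val, h'⟩
    · obtain ⟨h', hg⟩ := h
      refine ⟨W ⟨c.val, h'⟩, A ⟨c.val, h'⟩, n ⟨c.val, h'⟩, ⟨hch _, ?_⟩, fun _ _ => subset_rfl⟩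
      rw [hgd] at hg
      exact hg
    · refine ⟨fun _ => ∅, fun _ => t₀, fun _ => 1, ⟨emptyChain k q m L T _ t₀ (by omega) ht₀0,
        hemp⟩, fun h' hg => absurd ⟨h', hg⟩ h⟩
  choose W' A' n' hW' hWW' using hc'
  -- the exceptional set
  obtain ⟨Er, hEr⟩ : ∃ Er : Set (X k), Er =
    {a : X k | (N : ℝ) * t / 4 ≤ ‖f r (phi 1 (q ^ m * L) a)‖} := ⟨_, rfl⟩
  obtain ⟨bd, hbd⟩ : ∃ bd : Finset (Fin (TTf m)), bd = univ.filter (fun c => ¬ gd c) := ⟨_, rfl⟩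
  obtain ⟨E0, hE0⟩ : ∃ E0 : Set (X k), E0 =
    (Er ∪ Etop k q m L (t₀ * (q : ℝ) ^ m)) ∪ ⋃ c ∈ bd, W c 0 := ⟨_, rfl⟩
  have hE0vol : (N : ℝ) ^ K * t ^ (2 * K) * volume.real E0 ≤ (q : ℝ) ^ (-d) := by
    obtain ⟨G, hG⟩ : ∃ G : ℝ, G = (N : ℝ) ^ K * t ^ (2 * K) := ⟨_, rfl⟩
    have hG0 : 0 ≤ G := by rw [hG]; positivity
    obtain ⟨G', hG'⟩ : ∃ G' : ℝ, G' = ((q : ℝ) ^ m * L) ^ K * t₀ ^ (2 * K) := ⟨_, rfl⟩
    have hGG' : G ≤ (32 / 9) ^ K * G' := by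
      rw [hG, hG', pow_mul, pow_mul, ← mul_pow, ← mul_pow, ← mul_pow]
      refine pow_le_pow_left₀ (by positivity) ?_ K
      rw [ht₀2]
      have h2 : (N : ℝ) / 2 * (9 / 16 * t ^ 2) ≤ (q : ℝ) ^ m * L * (9 / 16 * t ^ 2) :=
        mul_le_mul_of_nonneg_right hz1 (by positivity)
      linarith
    have hv1 : volume.real E0 ≤ (volume.real Er +
        volume.real (Etop k q m L (t₀ * (q : ℝ) ^ m))) + ∑ c ∈ bd, volume.real (W c 0) := by
      rw [hE0]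
      refine (measureReal_union_le _ _).trans (add_le_add (measureReal_union_le _ _) ?_)
      exact measureReal_biUnion_finset_le _ _
    have hv2 : G * volume.real Er ≤ Cw * 16 ^ K * Q ^ (-(2 * d)) := by
      have h1 := hrest N (q ^ m * L) r t hN ht0
      rw [← hEr, ← hG] at h1
      refine h1.trans (mul_le_mul_of_nonneg_left ?_ (by positivity))
      have h2 : ((r : ℝ) / N) ^ K ≤ (1 / Q) ^ K := pow_le_pow_left₀ (by positivity) hrN K
      refine h2.trans ?_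
      have h3 : (1 / Q) ^ K = Q ^ (-(K : ℝ)) := by
        rw [Real.rpow_neg hQ0.le, Real.rpow_natCast, one_div, inv_pow]
      rw [h3]
      apply Real.rpow_le_rpow_of_exponent_le hQ1.le
      have h4 : (1 : ℝ) ≤ K := by
        have : 1 ≤ K := by omega
        exact_mod_cast this
      linarith
    have hv3 : G * volume.real (Etop k q m L (t₀ * (q : ℝ) ^ m)) ≤
        (32 / 9) ^ K * Q ^ (-(2 * d)) := by
      have h1 := hq2' D m (by omega) q L t₀ (by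
        have := hqs' D hDMD m hmm₁
        omega) hL1 ht₀0 hzhi
      rw [← hG'] at h1
      calc G * volume.real (Etop k q m L (t₀ * (q : ℝ) ^ m))
          ≤ ((32 / 9) ^ K * G') * volume.real (Etop k q m L (t₀ * (q : ℝ) ^ m)) :=
            mul_le_mul_of_nonneg_right hGG' measureReal_nonneg
        _ = (32 / 9) ^ K * (G' * volume.real (Etop k q m L (t₀ * (q : ℝ) ^ m))) := by ring
        _ ≤ (32 / 9) ^ K * (1 / (q : ℝ)) := mul_le_mul_of_nonneg_left h1 (by positivity)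
        _ ≤ (32 / 9) ^ K * Q ^ (-(2 * d)) := by
            refine mul_le_mul_of_nonneg_left ?_ (by positivity)
            rw [← hQ, one_div, ← Real.rpow_neg_one]
            exact Real.rpow_le_rpow_of_exponent_le hQ1.le (by linarith)
    have hv4 : ∀ c ∈ bd, G * volume.real (W c 0) ≤ (32 / 9) ^ K * Q ^ (-(2 * d)) := by
      intro c hc
      rw [hbd, mem_filter, hgd] at hc
      have hc2 := hc.2
      push Not at hc2
      obtain ⟨l, hl, hl2⟩ := hc2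
      have h1 := hq1' D m hDCB hDMD hmV q L t₀ (W c) (A c) (n c) (R c) (by
        have := hqs' D hDMD m hmm₁
        omega) hqp hL1 ht₀0 hzlo hzhi hmL (hch c) (hlab c) ⟨l, hl, hl2.le⟩
      rw [← hG'] at h1
      calc G * volume.real (W c 0)
          ≤ ((32 / 9) ^ K * G') * volume.real (W c 0) :=
            mul_le_mul_of_nonneg_right hGG' measureReal_nonneg
        _ = (32 / 9) ^ K * (G' * volume.real (W c 0)) := by ring
        _ ≤ (32 / 9) ^ K * (q : ℝ) ^ (-δ) := mul_le_mul_of_nonneg_left h1 (by positivity)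
        _ ≤ (32 / 9) ^ K * Q ^ (-(2 * d)) := by
            refine mul_le_mul_of_nonneg_left ?_ (by positivity)
            rw [← hQ]
            exact Real.rpow_le_rpow_of_exponent_le hQ1.le (by linarith)
    have hcard : (bd.card : ℝ) ≤ TT := by
      have h1 : bd.card ≤ TTf m := by
        have := Finset.card_le_univ bd
        rwa [Fintype.card_fin] at this
      have h2 := hTTm m hmm₁
      exact_mod_cast h1.trans h2
    have hQd : 0 ≤ Q ^ (-(2 * d)) := by positivity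
    have hv5 : G * ∑ c ∈ bd, volume.real (W c 0) ≤ TT * ((32 / 9) ^ K * Q ^ (-(2 * d))) := by
      rw [Finset.mul_sum]
      refine (Finset.sum_le_sum hv4).trans ?_
      rw [Finset.sum_const, nsmul_eq_mul]
      exact mul_le_mul_of_nonneg_right hcard (by positivity)
    rw [← hG, ← hQ]
    calc G * volume.real E0 ≤ G * ((volume.real Er +
          volume.real (Etop k q m L (t₀ * (q : ℝ) ^ m))) + ∑ c ∈ bd, volume.real (W c 0)) :=
          mul_le_mul_of_nonneg_left hv1 hG0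
      _ = G * volume.real Er + G * volume.real (Etop k q m L (t₀ * (q : ℝ) ^ m)) +
          G * ∑ c ∈ bd, volume.real (W c 0) := by ring
      _ ≤ Cw * 16 ^ K * Q ^ (-(2 * d)) + (32 / 9) ^ K * Q ^ (-(2 * d)) +
          TT * ((32 / 9) ^ K * Q ^ (-(2 * d))) := add_le_add (add_le_add hv2 hv3) hv5
      _ = Z * Q ^ (-(2 * d)) := by rw [hZ]; ring
      _ ≤ Q ^ d * Q ^ (-(2 * d)) := mul_le_mul_of_nonneg_right hZq hQd
      _ = Q ^ (-d) := by
          rw [← Real.rpow_add hQ0]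
          congr 1
          ring
  refine ⟨m, L, toMeasurable volume E0, W', A', n', hkm, hmm₁, hqL, hN'N, hN2N',
    measurableSet_toMeasurable _ _, ?_, ?_, ?_⟩
  · have h1 : volume.real (toMeasurable volume E0) = volume.real E0 := by
      unfold Measure.real
      rw [measure_toMeasurable]
    rw [h1]
    exact hE0vol
  · intro c
    rw [← ht₀]
    exact hW' c
  · intro a ha
    rw [Set.mem_ofPred_eq] at ha
    by_cases hEra : a ∈ Er
    · left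
      apply subset_toMeasurable
      rw [hE0]
      exact Or.inl (Or.inl hEra)
    · have h1 : t₀ ≤ ‖u (q ^ m * L) a‖ := by
        by_contra hcon
        rw [not_le, ht₀] at hcon
        apply hEra
        rw [hEr, Set.mem_ofPred_eq]
        rw [← hNr] at ha ⊢
        exact rest_large (q ^ m * L) r t a hN'1 ha hcon
      rcases hcov h1 with h2 | h2
      · rw [Set.mem_iUnion] at h2
        obtain ⟨c, hc⟩ := h2
        by_cases hg : gd c
        · right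
          rw [Set.mem_iUnion]
          have hcT : c.val < TT := lt_of_lt_of_le c.2 (hTTm m hmm₁)
          exact ⟨⟨c.val, hcT⟩, hWW' ⟨c.val, hcT⟩ c.2 hg hc⟩
        · left
          apply subset_toMeasurable
          rw [hE0]
          right
          rw [Set.mem_iUnion₂]
          exact ⟨c, by rw [hbd, mem_filter]; exact ⟨mem_univ _, hg⟩, hc⟩
      · left
        apply subset_toMeasurable
        rw [hE0]
        exact Or.inl (Or.inr h2)

end Pool.Agent.H25.LVP
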